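import Pool.Agent.R775.HS.Sob2
import Pool.Agent.Y909.SP.TRA

/-!
# Local Sobolev regularity in bi-Lipschitz charts

Adaptation of `Pool/Agent/Y909/SP/TRA.lean`.
-/

set_option autoImplicit false

open MeasureTheory Set Metric Filter Topology
open scoped ENNReal NNReal

namespace Pool.Agent.R775.HC

open Pool.Agent.Y485.HS Pool.Agent.Y489.SP Pool.Agent.R775.HS

/-- the bi-Lipschitz charts -/
def BL (n : ℕ) (X : Type) [MetricSpace X] : Set (OpenPartialHomeomorph X (E n)) :=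
  {φ | ∃ L : ℝ, ∀ a ∈ φ.source, ∀ b ∈ φ.source,
    dist (φ a) (φ b) ≤ L * dist a b ∧ dist a b ≤ L * dist (φ a) (φ b)}

theorem stable_BL (n : ℕ) (X : Type) [MetricSpace X] : Stable n (BL n X) := by
  rintro φ ⟨L, hL⟩ e ⟨L', hL'⟩
  have hsub : (φ.trans e).source ⊆ φ.source := by
    rw [OpenPartialHomeomorph.trans_source]
    exact inter_subset_left
  refine ⟨|L'| * |L|, fun a ha b hb => ?_⟩
  have ha2 := ha
  have hb2 := hb
  rw [OpenPartialHomeomorph.trans_source] at ha2 hb2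
  obtain ⟨e1, e2⟩ := hL' (φ a) ha2.2 (φ b) hb2.2
  obtain ⟨f1, f2⟩ := hL a (hsub ha) b (hsub hb)
  have g1 : ∀ (c t : ℝ), 0 ≤ t → c * t ≤ |c| * t := fun c t ht =>
    mul_le_mul_of_nonneg_right (le_abs_self _) ht
  constructor
  · calc dist ((φ.trans e) a) ((φ.trans e) b) ≤ L' * dist (φ a) (φ b) := e1
      _ ≤ |L'| * dist (φ a) (φ b) := g1 _ _ dist_nonneg
      _ ≤ |L'| * (|L| * dist a b) := by
        gcongr
        exact f1.trans (g1 _ _ dist_nonneg)
      _ = _ := by ring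
  · calc dist a b ≤ L * dist (φ a) (φ b) := f2
      _ ≤ |L| * dist (φ a) (φ b) := g1 _ _ dist_nonneg
      _ ≤ |L| * (|L'| * dist (e (φ a)) (e (φ b))) := by
        gcongr
        exact e2.trans (g1 _ _ dist_nonneg)
      _ = |L'| * |L| * dist ((φ.trans e) a) ((φ.trans e) b) := by
        rw [OpenPartialHomeomorph.coe_trans]
        simp only [Function.comp_apply]
        ring

/-- the map is of class `W^{1,q}` near the point for some `q > n - 1` -/
def SobAt0 (n : ℕ) {X : Type} [MetricSpace X] [MeasurableSpace X] [BorelSpace X] (f : X → X)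
    (x : X) : Prop :=
  ∃ W ∈ 𝓝 x, ∃ q : ℝ, (n : ℝ) - 1 < q ∧ ∃ h : X → ℝ≥0∞, Measurable h ∧
    (∀ a ∈ W, ∀ b ∈ W, edist (f a) (f b) ≤ edist a b * (h a + h b)) ∧
    ∫⁻ a in W, h a ^ q ∂(Measure.hausdorffMeasure (n : ℝ)) < ∞

theorem ener_at0 {n : ℕ} (hn : 2 ≤ n) {X : Type} [MetricSpace X] [MeasurableSpace X]
    [BorelSpace X] {φ : OpenPartialHomeomorph X (E n)} (hφ : φ ∈ BL n X) {G : Type} [Group G]
    [MulAction G X] [ContinuousConstSMul G X] (g : G) {x : X} (hx : x ∈ φ.source)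
    (hgx : g • x ∈ φ.source) (hS : SobAt0 n (fun x : X => g • x) x) :
    ∃ ρ : ℝ, 0 < ρ ∧ ∃ m : ℕ, ∀ j, m ≤ j → Ener (closedBall (φ x) ρ) ((1 / 2) ^ j)
      (2 ^ j / (j + 1)) (fun v => φ (g • φ.symm v)) := by
  classical
  obtain ⟨L, hbl⟩ := hφ
  obtain ⟨W, hW, q, hq, h, hhm, hhH, hhE⟩ := hS
  have hn2 : (2 : ℝ) ≤ n := by exact_mod_cast hn
  have hq0 : 0 < q := by linarith
  obtain ⟨K, hK⟩ : ∃ K : ℝ≥0, K = Real.toNNReal L := ⟨_, rfl⟩
  have hLK : L ≤ (K : ℝ) := by rw [hK]; exact Real.le_coe_toNNReal L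
  have hlip : LipschitzOnWith K φ φ.source := by
    refine LipschitzOnWith.of_dist_le_mul fun a ha b hb => ?_
    exact ((hbl a ha b hb).1).trans (mul_le_mul_of_nonneg_right hLK dist_nonneg)
  have hlip' : LipschitzOnWith K φ.symm φ.target := by
    refine LipschitzOnWith.of_dist_le_mul fun a ha b hb => ?_
    have h1 := (hbl _ (φ.map_target ha) _ (φ.map_target hb)).2
    rw [φ.right_inv ha, φ.right_inv hb] at h1
    exact h1.trans (mul_le_mul_of_nonneg_right hLK dist_nonneg)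
  -- a small ball
  have hv0 : φ x ∈ φ.target := φ.map_source hx
  have hct : ContinuousAt φ.symm (φ x) := φ.continuousAt_symm hv0
  have hleft : φ.symm (φ x) = x := φ.left_inv hx
  have hev : ∀ᶠ v in 𝓝 (φ x), v ∈ φ.target ∧ φ.symm v ∈ W ∧ g • φ.symm v ∈ φ.source := by
    have e1 : ∀ᶠ v in 𝓝 (φ x), v ∈ φ.target := φ.open_target.mem_nhds hv0
    have e2 : ∀ᶠ v in 𝓝 (φ x), φ.symm v ∈ W := hct.eventually_mem (by rw [hleft]; exact hW)
    have e3 : ContinuousAt (fun v => g • φ.symm v) (φ x) := hct.const_smul g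
    have e4 : ∀ᶠ v in 𝓝 (φ x), g • φ.symm v ∈ φ.source :=
      e3.eventually_mem (by simp only [hleft]; exact φ.open_source.mem_nhds hgx)
    exact e1.and (e2.and e4)
  obtain ⟨R, hR, hball⟩ := Metric.eventually_nhds_iff_ball.1 hev
  set z0 : E n := φ x with hz0
  set Bz : Set (E n) := ball z0 R with hBz
  have hBm : MeasurableSet Bz := measurableSet_ball
  let u : OpenPartialHomeomorph (E n) (E n) :=
    (φ.symm.trans ((Homeomorph.smul g).toOpenPartialHomeomorph.trans φ)).restrOpen Bz isOpen_ball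
  have husrc : u.source = Bz := by
    show (φ.symm.trans ((Homeomorph.smul g).toOpenPartialHomeomorph.trans φ)).source ∩ Bz = Bz
    refine inter_eq_right.2 fun v hv => ?_
    obtain ⟨h1, h2, h3⟩ := hball v hv
    rw [OpenPartialHomeomorph.trans_source]
    refine ⟨h1, ?_⟩
    rw [mem_preimage, OpenPartialHomeomorph.trans_source]
    exact ⟨mem_univ _, h3⟩
  have hu : ∀ v, u v = φ (g • φ.symm v) := fun v => rfl
  obtain ⟨θ', hθ'⟩ : ∃ θ' : E n → X, θ' = Bz.piecewise φ.symm (fun _ => x) := ⟨_, rfl⟩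
  have hBt : Bz ⊆ φ.target := fun v hv => (hball v hv).1
  have hθ'm : Measurable θ' := by
    rw [hθ']
    exact (φ.continuousOn_symm.mono hBt).measurable_piecewise continuousOn_const hBm
  have hθ'e : ∀ y ∈ Bz, θ' y = φ.symm y := by
    intro y hy
    rw [hθ']
    exact piecewise_eq_of_mem _ _ _ hy
  obtain ⟨g', hg'⟩ : ∃ g' : E n → ℝ≥0∞, g' = fun y => (K : ℝ≥0∞) * (K : ℝ≥0∞) * h (θ' y) :=
    ⟨_, rfl⟩
  have hg'm : Measurable g' := by
    rw [hg']
    exact (hhm.comp hθ'm).const_mul _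
  have hHaj : Haj u.source u g' := by
    intro v hv w hw
    rw [husrc] at hv hw
    obtain ⟨v1, v2, v3⟩ := hball v hv
    obtain ⟨w1, w2, w3⟩ := hball w hw
    have h1 := hlip v3 w3
    have h2 := hhH _ v2 _ w2
    have h3 := hlip' v1 w1
    rw [hg', hu, hu]
    simp only
    rw [hθ'e v hv, hθ'e w hw]
    calc edist (φ (g • φ.symm v)) (φ (g • φ.symm w)) ≤ K * edist (g • φ.symm v) (g • φ.symm w) := h1
      _ ≤ K * (edist (φ.symm v) (φ.symm w) * (h (φ.symm v) + h (φ.symm w))) := by gcongr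
      _ ≤ K * ((K * edist v w) * (h (φ.symm v) + h (φ.symm w))) := by gcongr
      _ = edist v w * (K * K * h (φ.symm v) + K * K * h (φ.symm w)) := by ring
  have hEn : ∫⁻ y in u.source, g' y ^ q < ∞ := by
    rw [husrc]
    obtain ⟨c, hc⟩ := Pool.Agent.Y858.HS.vol_haus n
    have hmap : (volume.restrict Bz).map θ' ≤
        ((c : ℝ≥0∞) * (K : ℝ≥0∞) ^ n) • (Measure.hausdorffMeasure (n : ℝ)).restrict W := by
      refine Measure.le_iff.2 fun A hA => ?_
      rw [Measure.map_apply hθ'm hA, Measure.restrict_apply (hθ'm hA), Measure.smul_apply,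
        Measure.restrict_apply hA, smul_eq_mul]
      have hsub : θ' ⁻¹' A ∩ Bz ⊆ φ '' (A ∩ (W ∩ φ.source)) := by
        rintro y ⟨hyA, hyB⟩
        refine ⟨φ.symm y, ⟨?_, (hball y hyB).2.1, φ.map_target (hBt hyB)⟩, φ.right_inv (hBt hyB)⟩
        rw [← hθ'e y hyB]
        exact hyA
      have hh := (hlip.mono
        (fun a ha => ha.2.2 : A ∩ (W ∩ φ.source) ⊆ φ.source)).hausdorffMeasure_image_le
        (d := (n : ℝ)) (Nat.cast_nonneg n)
      calc volume (θ' ⁻¹' A ∩ Bz) ≤ volume (φ '' (A ∩ (W ∩ φ.source))) := measure_mono hsub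
        _ = c * Measure.hausdorffMeasure (n : ℝ) (φ '' (A ∩ (W ∩ φ.source))) := hc _
        _ ≤ c * ((K : ℝ≥0∞) ^ (n : ℝ) *
            Measure.hausdorffMeasure (n : ℝ) (A ∩ (W ∩ φ.source))) := by gcongr
        _ ≤ c * ((K : ℝ≥0∞) ^ (n : ℝ) * Measure.hausdorffMeasure (n : ℝ) (A ∩ W)) := by
          gcongr
          exact inter_subset_left
        _ = c * (K : ℝ≥0∞) ^ n * Measure.hausdorffMeasure (n : ℝ) (A ∩ W) := by
          rw [ENNReal.rpow_natCast, mul_assoc]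
    have h1 : ∫⁻ y in Bz, h (θ' y) ^ q < ∞ := by
      have h2 : ∫⁻ y in Bz, h (θ' y) ^ q = ∫⁻ x, h x ^ q ∂((volume.restrict Bz).map θ') :=
        (lintegral_map (hhm.pow_const q) hθ'm).symm
      rw [h2]
      refine lt_of_le_of_lt (lintegral_mono' hmap le_rfl) ?_
      rw [lintegral_smul_measure, smul_eq_mul]
      refine ENNReal.mul_lt_top ?_ hhE
      exact ENNReal.mul_lt_top ENNReal.coe_lt_top (ENNReal.pow_lt_top ENNReal.coe_lt_top)
    have h3 : ∫⁻ y in Bz, g' y ^ q =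
        ((K : ℝ≥0∞) * (K : ℝ≥0∞)) ^ q * ∫⁻ y in Bz, h (θ' y) ^ q := by
      rw [hg']
      have hm2 : Measurable (fun y => h (θ' y) ^ q) := (hhm.comp hθ'm).pow_const q
      rw [← lintegral_const_mul _ hm2]
      simp only [ENNReal.mul_rpow_of_nonneg _ _ hq0.le]
    rw [h3]
    exact ENNReal.mul_lt_top (ENNReal.rpow_lt_top_of_nonneg hq0.le
      (ENNReal.mul_lt_top ENNReal.coe_lt_top ENNReal.coe_lt_top).ne) h1
  have hρ : 0 < R / 3 := by positivity
  obtain ⟨m, hm⟩ := sob_ener hn u hq hg'm hHaj hEn hρ (z0 := z0) (by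
    rw [husrc]
    exact closedBall_subset_ball (by linarith))
  exact ⟨R / 3, hρ, m, hm⟩

/-- the map has small images of balls near the point -/
def SmallAt (n : ℕ) {X : Type} [MetricSpace X] (f : X → X) (x : X) : Prop :=
  ∃ W ∈ 𝓝 x, IsCompact W ∧ ∀ c : ℕ, ∃ N : ℕ, ∀ r : ℝ, 0 < r → r ≤ 1 → ∀ A : Finset X,
    (∀ a ∈ A, a ∈ W) → (∀ a ∈ A, ∀ b ∈ A, a ≠ b → r ≤ dist a b) →
    ∑ a ∈ A, Metric.diam (f '' (closedBall a (c * r) ∩ W)) ^ n ≤ N * r ^ (1 / (N : ℝ) - 1)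

theorem seq_bound (C δ : ℝ) (hδ : 0 < δ) :
    ∃ m : ℕ, ∀ j : ℕ, m ≤ j → C * ((1 / 2 : ℝ) ^ j) ^ (δ - 1) ≤ 2 ^ j / (j + 1) := by
  set s : ℝ := (1 / 2 : ℝ) ^ δ with hs
  have hs0 : 0 ≤ s := by positivity
  have hs1 : s < 1 := Real.rpow_lt_one (by norm_num) (by norm_num) hδ
  have hl1 : Tendsto (fun j : ℕ => (j : ℝ) * s ^ j) atTop (𝓝 0) :=
    tendsto_self_mul_const_pow_of_lt_one hs0 hs1
  have hl2 : Tendsto (fun j : ℕ => s ^ j) atTop (𝓝 0) := tendsto_pow_atTop_nhds_zero_of_lt_one hs0 hs1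
  have hl3 : Tendsto (fun j : ℕ => C * ((j : ℝ) * s ^ j + s ^ j)) atTop (𝓝 0) := by
    simpa using (hl1.add hl2).const_mul C
  obtain ⟨m, hm⟩ := eventually_atTop.1 (hl3.eventually (gt_mem_nhds one_pos))
  refine ⟨m, fun j hj => ?_⟩
  have k1 := hm j hj
  have hj1 : (0 : ℝ) < (j : ℝ) + 1 := by positivity
  have e1 : ((1 / 2 : ℝ) ^ j) ^ (δ - 1) = s ^ j * 2 ^ j := by
    rw [Real.rpow_sub_one (by positivity), hs, Real.rpow_pow_comm (by norm_num)]
    rw [div_eq_mul_inv, ← inv_pow]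
    norm_num
  rw [e1, le_div_iff₀ hj1]
  have h2j : (0 : ℝ) < 2 ^ j := by positivity
  calc C * (s ^ j * 2 ^ j) * (j + 1) = (C * ((j : ℝ) * s ^ j + s ^ j)) * 2 ^ j := by ring
    _ ≤ 1 * 2 ^ j := by
        apply mul_le_mul_of_nonneg_right k1.le h2j.le
    _ = 2 ^ j := one_mul _

theorem ener_at1 {n : ℕ} {X : Type} [MetricSpace X]
    {φ : OpenPartialHomeomorph X (E n)} (hφ : φ ∈ BL n X) {G : Type} [Group G]
    [MulAction G X] [ContinuousConstSMul G X] (g : G) {x : X} (hx : x ∈ φ.source)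
    (hgx : g • x ∈ φ.source) (hS : SmallAt n (fun x : X => g • x) x) :
    ∃ ρ : ℝ, 0 < ρ ∧ ∃ m : ℕ, ∀ j, m ≤ j → Ener (closedBall (φ x) ρ) ((1 / 2) ^ j)
      (2 ^ j / (j + 1)) (fun v => φ (g • φ.symm v)) := by
  classical
  obtain ⟨L, hbl⟩ := hφ
  obtain ⟨W, hW, hWc, hWE⟩ := hS
  obtain ⟨K, hK⟩ : ∃ K : ℝ, K = max L 1 := ⟨_, rfl⟩
  have hLK : L ≤ K := by rw [hK]; exact le_max_left _ _
  have hK1 : 1 ≤ K := by rw [hK]; exact le_max_right _ _
  have hK0 : 0 < K := by linarith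
  have hlip : ∀ a ∈ φ.source, ∀ b ∈ φ.source, dist (φ a) (φ b) ≤ K * dist a b :=
    fun a ha b hb => ((hbl a ha b hb).1).trans (mul_le_mul_of_nonneg_right hLK dist_nonneg)
  have hlip' : ∀ a ∈ φ.target, ∀ b ∈ φ.target, dist (φ.symm a) (φ.symm b) ≤ K * dist a b := by
    intro a ha b hb
    have h1 := (hbl _ (φ.map_target ha) _ (φ.map_target hb)).2
    rw [φ.right_inv ha, φ.right_inv hb] at h1
    exact h1.trans (mul_le_mul_of_nonneg_right hLK dist_nonneg)
  have hv0 : φ x ∈ φ.target := φ.map_source hx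
  have hct : ContinuousAt φ.symm (φ x) := φ.continuousAt_symm hv0
  have hleft : φ.symm (φ x) = x := φ.left_inv hx
  have hev : ∀ᶠ v in 𝓝 (φ x), v ∈ φ.target ∧ φ.symm v ∈ W ∧ g • φ.symm v ∈ φ.source := by
    have e1 : ∀ᶠ v in 𝓝 (φ x), v ∈ φ.target := φ.open_target.mem_nhds hv0
    have e2 : ∀ᶠ v in 𝓝 (φ x), φ.symm v ∈ W := hct.eventually_mem (by rw [hleft]; exact hW)
    have e3 : ContinuousAt (fun v => g • φ.symm v) (φ x) := hct.const_smul g
    have e4 : ∀ᶠ v in 𝓝 (φ x), g • φ.symm v ∈ φ.source :=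
      e3.eventually_mem (by simp only [hleft]; exact φ.open_source.mem_nhds hgx)
    exact e1.and (e2.and e4)
  obtain ⟨ρ, hρ, hball⟩ := (nhds_basis_closedBall.mem_iff).1 hev
  have hbt : ∀ v ∈ closedBall (φ x) ρ, v ∈ φ.target := fun v hv => (hball hv).1
  obtain ⟨c, hc⟩ := exists_nat_ge (K ^ 2)
  obtain ⟨N, hN⟩ := hWE c
  have hinj : InjOn φ.symm (closedBall (φ x) ρ) := fun a ha b hb hab => by
    rw [← φ.right_inv (hbt a ha), hab, φ.right_inv (hbt b hb)]
  have hone : ∀ r : ℝ, 0 < r → r ≤ 1 → Ener (closedBall (φ x) ρ) r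
      (K ^ n * (N * (r / K) ^ (1 / (N : ℝ) - 1))) (fun v => φ (g • φ.symm v)) := by
    intro r hr0 hr1 A y z h1 hAs
    have hr' : 0 < r / K := by positivity
    have hr'1 : r / K ≤ 1 := by
      rw [div_le_one hK0]
      linarith
    have hmain := hN (r / K) hr' hr'1 (A.image φ.symm) (by
        intro a ha
        obtain ⟨a0, ha0, rfl⟩ := Finset.mem_image.1 ha
        exact (hball (h1 a0 ha0).1).2.1) (by
        intro a ha b hb hab
        obtain ⟨a0, ha0, rfl⟩ := Finset.mem_image.1 ha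
        obtain ⟨b0, hb0, rfl⟩ := Finset.mem_image.1 hb
        have hne : a0 ≠ b0 := fun h => hab (by rw [h])
        have h3 := hAs a0 ha0 b0 hb0 hne
        have h2 := hlip _ (φ.map_target (hbt _ (h1 a0 ha0).1)) _
          (φ.map_target (hbt _ (h1 b0 hb0).1))
        rw [φ.right_inv (hbt _ (h1 a0 ha0).1), φ.right_inv (hbt _ (h1 b0 hb0).1)] at h2
        rw [div_le_iff₀ hK0]
        linarith)
    rw [Finset.sum_image (fun a ha b hb hab => hinj (h1 a ha).1 (h1 b hb).1 hab)] at hmain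
    have hterm : ∀ a ∈ A, dist (φ (g • φ.symm (y a))) (φ (g • φ.symm (z a))) ^ n ≤
        K ^ n * Metric.diam ((fun x : X => g • x) ''
          (closedBall (φ.symm a) (c * (r / K)) ∩ W)) ^ n := by
      intro a ha
      rw [← mul_pow]
      refine pow_le_pow_left₀ dist_nonneg ?_ n
      obtain ⟨ha1, hy1, hz1, hy2, hz2⟩ := h1 a ha
      have hin : ∀ w ∈ closedBall (φ x) ρ, dist w a ≤ r →
          φ.symm w ∈ closedBall (φ.symm a) (c * (r / K)) ∩ W := by
        intro w hw hwa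
        refine ⟨?_, (hball hw).2.1⟩
        rw [mem_closedBall]
        calc dist (φ.symm w) (φ.symm a) ≤ K * dist w a := hlip' _ (hbt w hw) _ (hbt a ha1)
          _ ≤ K * r := by gcongr
          _ = K ^ 2 * (r / K) := by field_simp
          _ ≤ c * (r / K) := by gcongr
      have hbdd : Bornology.IsBounded ((fun x : X => g • x) ''
          (closedBall (φ.symm a) (c * (r / K)) ∩ W)) :=
        ((hWc.image (continuous_const_smul g)).isBounded).subset (image_mono inter_subset_right)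
      calc dist (φ (g • φ.symm (y a))) (φ (g • φ.symm (z a)))
          ≤ K * dist (g • φ.symm (y a)) (g • φ.symm (z a)) :=
            hlip _ (hball hy1).2.2 _ (hball hz1).2.2
        _ ≤ _ := by
          gcongr
          exact dist_le_diam_of_mem hbdd (mem_image_of_mem _ (hin _ hy1 hy2))
            (mem_image_of_mem _ (hin _ hz1 hz2))
    calc ∑ a ∈ A, dist (φ (g • φ.symm (y a))) (φ (g • φ.symm (z a))) ^ n
        ≤ ∑ a ∈ A, K ^ n * Metric.diam ((fun x : X => g • x) ''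
          (closedBall (φ.symm a) (c * (r / K)) ∩ W)) ^ n := Finset.sum_le_sum hterm
      _ = K ^ n * ∑ a ∈ A, Metric.diam ((fun x : X => g • x) ''
          (closedBall (φ.symm a) (c * (r / K)) ∩ W)) ^ n := by rw [Finset.mul_sum]
      _ ≤ K ^ n * (N * (r / K) ^ (1 / (N : ℝ) - 1)) := by gcongr
  set N' : ℕ := ⌈K ^ (n + 1) * N⌉₊ + 1 with hN'
  have hN'0 : (0 : ℝ) < (N' : ℝ) := by rw [hN']; positivity
  have hbd : ∀ r : ℝ, 0 < r → r ≤ 1 →
      K ^ n * (N * (r / K) ^ (1 / (N : ℝ) - 1)) ≤ N' * r ^ (1 / (N' : ℝ) - 1) := by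
    intro r hr0 hr1
    refine (Pool.Agent.Y909.SP.const_aux K r hK1 hr0 hr1 n N).trans ?_
    rcases Nat.eq_zero_or_pos ⌈K ^ (n + 1) * N⌉₊ with h0 | h0
    · rw [h0]
      simp only [Nat.cast_zero, zero_mul]
      positivity
    · have h0' : (0 : ℝ) < (⌈K ^ (n + 1) * N⌉₊ : ℝ) := by exact_mod_cast h0
      have h1 : (⌈K ^ (n + 1) * N⌉₊ : ℝ) ≤ (N' : ℝ) := by rw [hN']; push_cast; linarith
      have h2 : r ^ (1 / (⌈K ^ (n + 1) * N⌉₊ : ℝ) - 1) ≤ r ^ (1 / (N' : ℝ) - 1) := by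
        refine Real.rpow_le_rpow_of_exponent_ge hr0 hr1 ?_
        have := one_div_le_one_div_of_le h0' h1
        linarith
      have h3 : 0 ≤ r ^ (1 / (⌈K ^ (n + 1) * N⌉₊ : ℝ) - 1) := Real.rpow_nonneg hr0.le _
      exact mul_le_mul h1 h2 h3 hN'0.le
  obtain ⟨m, hm⟩ := seq_bound (N' : ℝ) (1 / (N' : ℝ)) (by positivity)
  refine ⟨ρ, hρ, m, fun j hj => ?_⟩
  have hj0 : (0 : ℝ) < (1 / 2) ^ j := by positivity
  have hj1 : ((1 : ℝ) / 2) ^ j ≤ 1 := pow_le_one₀ (by norm_num) (by norm_num)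
  exact ener_mono subset_rfl ((hbd _ hj0 hj1).trans (hm j hj)) (hone _ hj0 hj1)

/-- the map is regular near the point -/
def SobAt (n : ℕ) {X : Type} [MetricSpace X] [MeasurableSpace X] [BorelSpace X] (f : X → X)
    (x : X) : Prop := SobAt0 n f x ∨ SmallAt n f x

theorem ener_at {n : ℕ} (hn : 2 ≤ n) {X : Type} [MetricSpace X] [MeasurableSpace X]
    [BorelSpace X] {φ : OpenPartialHomeomorph X (E n)} (hφ : φ ∈ BL n X) {G : Type} [Group G]
    [MulAction G X] [ContinuousConstSMul G X] (g : G) {x : X} (hx : x ∈ φ.source)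
    (hgx : g • x ∈ φ.source) (hS : SobAt n (fun x : X => g • x) x) :
    ∃ ρ : ℝ, 0 < ρ ∧ ∃ m : ℕ, ∀ j, m ≤ j → Ener (closedBall (φ x) ρ) ((1 / 2) ^ j)
      (2 ^ j / (j + 1)) (fun v => φ (g • φ.symm v)) := by
  rcases hS with hS | hS
  · exact ener_at0 hn hφ g hx hgx hS
  · exact ener_at1 hφ g hx hgx hS

end Pool.Agent.R775.HC
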