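import Pool.Agent.R775.HS.Good

/-!
# Averages which are regular outside a countable set
-/

set_option autoImplicit false

open MeasureTheory Set Metric Filter Topology
open scoped ENNReal NNReal

namespace Pool.Agent.R775.HC

open Pool.Agent.Y485.HS Pool.Agent.Y489.SP Pool.Agent.Y475.HS Pool.Agent.R775.HS

/-- the average over the closure of the powers -/
theorem exists_avg {n : ℕ} {X : Type} [TopologicalSpace X] [T2Space X] {H : Type} [Group H]
    [TopologicalSpace H] [IsTopologicalGroup H] [T2Space H] [MulAction H X] [ContinuousSMul H X]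
    {φ : OpenPartialHomeomorph X (E n)} {g : H}
    (hcomp : IsCompact ((Subgroup.zpowers g).topologicalClosure : Set H))
    (hs : Small φ ((Subgroup.zpowers g).topologicalClosure : Set H)) :
    ∃ F : E n → E n, ContinuousOn F (closedBall 0 4) ∧
      (∀ v ∈ closedBall (0 : E n) 4, dist (F v) v ≤ 1 / 4) ∧
      (∀ v ∈ closedBall (0 : E n) 3, F (φ (g • φ.symm v)) = F v) ∧
      (∀ v ∈ closedBall (0 : E n) 3, g • φ.symm v = φ.symm v → F v = v) ∧
      ∀ (Q : Set (E n)) (r b : ℝ), Q ⊆ closedBall 0 4 →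
        (∀ q ∈ (Subgroup.zpowers g).topologicalClosure,
          Ener Q r b (fun u => φ (q • φ.symm u))) → Ener Q r b F := by
  set K : Subgroup H := (Subgroup.zpowers g).topologicalClosure with hKdef
  have hT := locAct_of_small K hs
  set T : K → E n → E n := fun h v => φ ((h : H) • φ.symm v) with hTdef
  have hgmem : g ∈ K := Subgroup.le_topologicalClosure _ (Subgroup.mem_zpowers g)
  have hKcomp : CompactSpace K := isCompact_iff_compactSpace.1 hcomp
  let _ : MeasurableSpace K := borel K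
  have _ : BorelSpace K := ⟨rfl⟩
  let μ : Measure K := Measure.haarMeasure ⊤
  have hμ1 : IsProbabilityMeasure μ := ⟨by
    have := Measure.haarMeasure_self (K₀ := (⊤ : TopologicalSpace.PositiveCompacts K))
    simpa using this⟩
  let S : K → E n → E n := fun k x => T k⁻¹ x
  have hScont : ContinuousOn (fun q : K × E n => S q.1 q.2) (univ ×ˢ BB n) := by
    have hc : Continuous (fun q : K × E n => (q.1⁻¹, q.2)) := by fun_prop
    refine hT.cont.comp hc.continuousOn ?_
    rintro ⟨k, x⟩ ⟨-, hx⟩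
    exact ⟨mem_univ _, hx⟩
  let Φ : C(K, C(BB n, E n)) := res S hScont
  have hint : Integrable (fun ω => Φ ω) μ :=
    Φ.continuous.integrable_of_hasCompactSupport (HasCompactSupport.of_compactSpace _)
  have heval : ∀ x : BB n, ∫ ω, S ω x.1 ∂μ = (∫ ω, Φ ω ∂μ : C(BB n, E n)) x := by
    intro x
    have := (ContinuousMap.evalCLM ℝ x : C(BB n, E n) →L[ℝ] E n).integral_comp_comm hint
    exact this
  set F : E n → E n := fun x => ∫ k, S k x ∂μ with hF
  have hFc : ContinuousOn F (BB n) := by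
    rw [continuousOn_iff_continuous_domRestrict]
    have : (BB n).domRestrict (fun x => ∫ ω, S ω x ∂μ) = (∫ ω, Φ ω ∂μ : C(BB n, E n)) := by
      ext1 x
      exact heval x
    rw [this]
    exact (∫ ω, Φ ω ∂μ : C(BB n, E n)).continuous
  have hSc1 : ∀ x ∈ BB n, Continuous (fun k => S k x) := by
    intro x hx
    have hc : Continuous (fun k : K => (k, x)) := by fun_prop
    exact hScont.comp_continuous hc (fun k => ⟨mem_univ _, hx⟩)
  have hSint : ∀ x ∈ BB n, Integrable (fun k => S k x) μ := fun x hx =>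
    (hSc1 x hx).integrable_of_hasCompactSupport (HasCompactSupport.of_compactSpace _)
  have hdisp : ∀ x ∈ BB n, dist (F x) x ≤ 1 / 4 := by
    intro x hx
    have h1 : F x - x = ∫ k, (S k x - x) ∂μ := by
      rw [integral_sub (hSint x hx) (integrable_const _)]
      simp [hF]
    rw [dist_eq_norm, h1]
    have h2 := norm_integral_le_of_norm_le_const (μ := μ) (f := fun k => S k x - x) (C := 1 / 4)
      (Eventually.of_forall fun k => by
        have := hT.disp k⁻¹ x hx
        rwa [dist_eq_norm] at this)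
    simpa using h2
  have hinv : ∀ k : K, ∀ x ∈ BB n, T k x ∈ BB n → F (T k x) = F x := by
    intro k x hx hkx
    have h1 : ∀ k' : K, S k' (T k x) = S (k⁻¹ * k') x := by
      intro k'
      show T k'⁻¹ (T k x) = T (k⁻¹ * k')⁻¹ x
      rw [← hT.mul _ _ x hx hkx]
      congr 1
      simp
    show ∫ k', S k' (T k x) ∂μ = ∫ k', S k' x ∂μ
    simp_rw [h1]
    exact integral_mul_left_eq_self (fun k' => S k' x) k⁻¹
  have hCB : closedBall (0 : E n) 3 ⊆ BB n := closedBall_subset_closedBall (by norm_num)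
  have hs2 := hs.2
  have hs1 := hs.1
  refine ⟨F, hFc, hdisp, ?_, ?_, ?_⟩
  · intro v hv
    have hvn : ‖v‖ ≤ 3 := by simpa using hv
    have h2 := norm_T_le hT ⟨g, hgmem⟩ (hCB hv)
    exact hinv ⟨g, hgmem⟩ v (hCB hv) (mem_BB.2 (by linarith))
  · intro v hv hgv
    have hall : ∀ k ∈ K, k • φ.symm v = φ.symm v := by
      have h1 : K ≤ MulAction.stabilizer H (φ.symm v) := by
        refine Subgroup.topologicalClosure_minimal _ ?_ ?_
        · rw [Subgroup.zpowers_le]
          exact hgv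
        · have h2 : IsClosed {h : H | h • φ.symm v = φ.symm v} := by
            have hc : Continuous (fun h : H => h • φ.symm v) := by fun_prop
            exact isClosed_eq hc continuous_const
          exact h2
      exact fun k hk => h1 hk
    have h1 : ∀ k : K, S k v = v := by
      intro k
      show φ (((k⁻¹ : K) : H) • φ.symm v) = v
      rw [hall _ (k⁻¹).2, φ.right_inv (hs1 (hCB hv))]
    show ∫ k, S k v ∂μ = v
    simp_rw [h1]
    simp
  · intro Q r b hQ hE
    exact ener_avg μ (fun k u => S k u) (fun u hu => hSc1 _ (hQ hu)) (fun k => hE _ (k⁻¹).2)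

/-- almost every fibre of a map which has small energies near the points outside a countable
set is totally disconnected -/
theorem ae_fibre' {n : ℕ} {F : E n → E n} (hF : ContinuousOn F (closedBall 0 4)) {N : Set (E n)}
    (hN : N.Countable) {r b : ℕ → ℝ} (hr : ∀ j, 0 < r j)
    (hrb : Tendsto (fun j => r j * b j) atTop (𝓝 0))
    (hE : ∀ v ∈ closedBall (0 : E n) 3, v ∉ N → ∃ ρ : ℝ, 0 < ρ ∧ closedBall v ρ ⊆ closedBall 0 4 ∧
      ∃ m : ℕ, ∀ j, m ≤ j → Ener (closedBall v ρ) (r j) (b j) F) :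
    ∀ᵐ y : E n, ∀ C ⊆ closedBall (0 : E n) 3, IsPreconnected C → (∀ x ∈ C, F x = y) →
      C.Subsingleton := by
  choose! ρ hρ hρ4 m hm using hE
  -- a countable cover
  obtain ⟨T0, hT0s, hT0c, hT0⟩ := TopologicalSpace.isOpen_biUnion_countable
    (closedBall (0 : E n) 3 \ N) (fun v => ball v (ρ v)) (fun v _ => isOpen_ball)
  have h1 : ∀ v ∈ T0, ∀ i : Fin n, ∃ T : Set ℝ, T.Countable ∧ Dense T ∧ ∀ t ∈ T,
      volume (F '' {x | x ∈ closedBall v (ρ v) ∧ x i = t}) = 0 := by
    intro v hv i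
    have hv' := hT0s hv
    have hd := Measure.dense_of_ae (slice_null (isCompact_closedBall v (ρ v))
      (hF.mono (hρ4 v hv'.1 hv'.2)) (r := fun j => r (j + m v)) (b := fun j => b (j + m v))
      (fun j => hr _) ((tendsto_add_atTop_iff_nat (m v)).2 hrb)
      (fun j => hm v hv'.1 hv'.2 _ (by omega)) i)
    obtain ⟨T, hT1, hT2, hT3⟩ := hd.exists_countable_dense_subset
    exact ⟨T, hT2, hT3, fun t ht => hT1 ht⟩
  choose! T hT1 hT2 hT3 using h1
  have h2 : ∀ᵐ y : E n, ∀ v ∈ T0, ∀ i : Fin n, ∀ t ∈ T v i,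
      y ∉ F '' {x | x ∈ closedBall v (ρ v) ∧ x i = t} := by
    rw [ae_ball_iff hT0c]
    intro v hv
    rw [ae_all_iff]
    intro i
    rw [ae_ball_iff (hT1 v hv i)]
    intro t ht
    exact measure_eq_zero_iff_ae_notMem.1 (hT3 v hv i t ht)
  rcases Nat.eq_zero_or_pos n with hn0 | hn0
  · subst hn0
    exact Eventually.of_forall fun y C _ _ _ x _ x' _ => Subsingleton.elim _ _
  have : Nonempty (Fin n) := ⟨⟨0, hn0⟩⟩
  have : Nontrivial (E n) := by
    refine ⟨0, EuclideanSpace.single ⟨0, hn0⟩ 1, fun h => ?_⟩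
    have := congrArg (fun z : E n => z ⟨0, hn0⟩) h
    simp at this
  have h3 : ∀ᵐ y : E n, y ∉ F '' N :=
    measure_eq_zero_iff_ae_notMem.1 ((hN.image F).measure_zero volume)
  filter_upwards [h2, h3] with y hy hyN C hC3 hC hCy x hx x' hx'
  by_contra hne
  have hxN : x ∉ N := fun h => hyN ⟨x, h, hCy x hx⟩
  have hxU : x ∈ ⋃ v ∈ closedBall (0 : E n) 3 \ N, ball v (ρ v) :=
    mem_biUnion (⟨hC3 hx, hxN⟩ : x ∈ closedBall (0 : E n) 3 \ N)
      (mem_ball_self (hρ x (hC3 hx) hxN))
  rw [← hT0] at hxU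
  obtain ⟨v, hv, hxv⟩ := mem_iUnion₂.1 hxU
  obtain ⟨i0, hi0⟩ : ∃ i : Fin n, x i ≠ x' i := by
    by_contra hall
    push Not at hall
    exact hne (PiLp.ext hall)
  obtain ⟨ε, hε, hball⟩ := Metric.isOpen_iff.1 (isOpen_ball (x := v) (ε := ρ v)) x hxv
  set δ : ℝ := min (ε / (2 * n)) |x i0 - x' i0| with hδ
  have hn' : (0 : ℝ) < n := by exact_mod_cast hn0
  have hδ0 : 0 < δ := lt_min (by positivity) (abs_pos.2 (sub_ne_zero.2 hi0))
  have hlo : ∀ i : Fin n, ∃ t ∈ T v i, x i - δ < t ∧ t < x i := fun i => by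
    obtain ⟨t, h1, h2, h3⟩ := (hT2 v hv i).exists_between (show x i - δ < x i by linarith)
    exact ⟨t, h1, h2, h3⟩
  have hup : ∀ i : Fin n, ∃ t ∈ T v i, x i < t ∧ t < x i + δ := fun i => by
    obtain ⟨t, h1, h2, h3⟩ := (hT2 v hv i).exists_between (show x i < x i + δ by linarith)
    exact ⟨t, h1, h2, h3⟩
  choose lo hlo1 hlo2 hlo3 using hlo
  choose up hup1 hup2 hup3 using hup
  set U : Set (E n) := {z | ∀ i, lo i < z i ∧ z i < up i} with hU
  set Kc : Set (E n) := {z | ∀ i, lo i ≤ z i ∧ z i ≤ up i} with hKc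
  have hci : ∀ i : Fin n, Continuous (fun z : E n => z i) := fun i => by fun_prop
  have hUo : IsOpen U := by
    have : U = ⋂ i, ({z : E n | lo i < z i} ∩ {z : E n | z i < up i}) := by ext; simp [U]
    rw [this]
    exact isOpen_iInter_of_finite fun i =>
      IsOpen.inter (isOpen_lt continuous_const (hci i)) (isOpen_lt (hci i) continuous_const)
  have hKcl : IsClosed Kc := by
    have : Kc = ⋂ i, ({z : E n | lo i ≤ z i} ∩ {z : E n | z i ≤ up i}) := by ext; simp [Kc]
    rw [this]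
    exact isClosed_iInter fun i =>
      IsClosed.inter (isClosed_le continuous_const (hci i)) (isClosed_le (hci i) continuous_const)
  have hKsub : Kc ⊆ closedBall v (ρ v) := by
    intro z hz
    refine ball_subset_closedBall (hball ?_)
    have hq : z ∈ Pool.Agent.Y566.SP.Q x δ := by
      intro i
      obtain ⟨a1, a2⟩ := hz i
      rw [abs_le]
      constructor
      · linarith [hlo2 i]
      · linarith [hup3 i]
    have h4 := Pool.Agent.Y566.SP.Q_sub_ball x hδ0.le hq
    rw [mem_closedBall] at h4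
    rw [mem_ball]
    have h5 : (n : ℝ) * δ ≤ ε / 2 := by
      calc (n : ℝ) * δ ≤ n * (ε / (2 * n)) := by gcongr; exact min_le_left _ _
        _ = ε / 2 := by field_simp
    linarith
  have hCU : C ⊆ U ∪ Kcᶜ := by
    intro z hz
    by_cases hzK : z ∈ Kc
    · left
      intro i
      obtain ⟨a1, a2⟩ := hzK i
      refine ⟨lt_of_le_of_ne a1 fun h => ?_, lt_of_le_of_ne a2 fun h => ?_⟩
      · exact hy v hv i _ (hlo1 i) ⟨z, ⟨hKsub hzK, h.symm⟩, hCy z hz⟩
      · exact hy v hv i _ (hup1 i) ⟨z, ⟨hKsub hzK, h⟩, hCy z hz⟩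
    · exact Or.inr hzK
  have hdisj : Disjoint U Kcᶜ := by
    rw [Set.disjoint_left]
    intro z hz hz'
    exact hz' fun i => ⟨(hz i).1.le, (hz i).2.le⟩
  have hsub : C ⊆ U := hC.subset_left_of_subset_union hUo hKcl.isOpen_compl hdisj hCU
    ⟨x, hx, fun i => ⟨hlo3 i, hup2 i⟩⟩
  have hx'U := hsub hx' i0
  have h6 : δ ≤ |x i0 - x' i0| := min_le_right _ _
  have h7 : |x i0 - x' i0| < δ := by
    rw [abs_lt]
    constructor
    · linarith [hx'U.2, hup3 i0]
    · linarith [hx'U.1, hlo2 i0]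
  linarith

/-- good maps from regularity outside a countable set -/
theorem exists_good' {n : ℕ} {X : Type} [TopologicalSpace X] [T2Space X] {H : Type} [Group H]
    [TopologicalSpace H] [IsTopologicalGroup H] [T2Space H] [MulAction H X] [ContinuousSMul H X]
    {φ : OpenPartialHomeomorph X (E n)} {g : H}
    (hcomp : IsCompact ((Subgroup.zpowers g).topologicalClosure : Set H))
    (hs : Small φ ((Subgroup.zpowers g).topologicalClosure : Set H)) {N : Set (E n)}
    (hN : N.Countable) {r b : ℕ → ℝ} (hr : ∀ j, 0 < r j)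
    (hrb : Tendsto (fun j => r j * b j) atTop (𝓝 0))
    (hE : ∀ v ∈ closedBall (0 : E n) 3, v ∉ N → ∃ ρ : ℝ, 0 < ρ ∧ ∃ m : ℕ, ∀ j, m ≤ j →
      ∀ q ∈ (Subgroup.zpowers g).topologicalClosure,
        Ener (closedBall v ρ) (r j) (b j) (fun u => φ (q • φ.symm u))) :
    ∃ F : E n → E n, GoodMap φ g F := by
  obtain ⟨F, h1, h2, h3, h4, h5⟩ := exists_avg hcomp hs
  have hae := ae_fibre' h1 hN hr hrb (by
    intro v hv hvN
    obtain ⟨ρ, hρ, m, hm⟩ := hE v hv hvN
    have hsub : closedBall v (min ρ 1) ⊆ closedBall (0 : E n) 4 := by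
      refine closedBall_subset_closedBall' ?_
      rw [mem_closedBall] at hv
      have := min_le_right ρ 1
      linarith
    refine ⟨min ρ 1, lt_min hρ one_pos, hsub, m, fun j hj => ?_⟩
    exact h5 _ _ _ hsub fun q hq => ener_mono (closedBall_subset_closedBall (min_le_left _ _)) le_rfl
      (hm j hj q hq))
  refine ⟨F, h1, h2, h3, h4, ?_⟩
  intro y hy ε hε
  have hopen : (ball (0 : E n) 1 ∩ ball y ε) ∈ 𝓝 y :=
    inter_mem (isOpen_ball.mem_nhds hy) (ball_mem_nhds y hε)
  have hd := Measure.dense_of_ae hae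
  obtain ⟨y', ⟨hy1, hy2⟩, hy3⟩ := (mem_closure_iff_nhds.1 (hd y)) _ hopen
  refine ⟨y', hy1, hy2, ?_⟩
  intro C hCc hCn hC3 hCy hCg
  have hsub := hy3 C hC3 hCn.isPreconnected hCy
  obtain ⟨v, hv⟩ := hCn.nonempty
  refine ⟨v, hv, ?_⟩
  have hgv : φ (g • φ.symm v) ∈ C := by
    rw [← hCg]
    exact ⟨v, hv, rfl⟩
  have h6 : φ (g • φ.symm v) = v := hsub hgv hv
  have hgm : g ∈ ((Subgroup.zpowers g).topologicalClosure : Set H) :=
    Subgroup.le_topologicalClosure _ (Subgroup.mem_zpowers g)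
  have hv4 : v ∈ closedBall (0 : E n) 4 := closedBall_subset_closedBall (by norm_num) (hC3 hv)
  rw [← φ.left_inv (hs.2 g hgm v hv4).1, h6]

end Pool.Agent.R775.HC
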