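import Pool.Agent.R775.HC.C1
import Pool.Agent.R775.HC.C2

/-!
# Newman's theorem at points where the group is locally finite
-/

set_option autoImplicit false

open MeasureTheory Set Metric Filter Topology
open scoped ENNReal NNReal

namespace Pool.Agent.R775.HC

open Pool.Agent.Y485.HS Pool.Agent.Y489.SP Pool.Agent.R775.HS

/-- the elements are regular at all regular points outside countable sets -/
def RegC (n : ℕ) (X : Type) [MetricSpace X] [MeasurableSpace X] [BorelSpace X] (H : Type)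
    [SMul H X] : Prop :=
  ∀ h : H, ∃ N : Set X, N.Countable ∧ ∀ x ∈ RegA (BL n X), x ∉ N → SobAt n (fun x : X => h • x) x

/-- the bi-Lipschitz charts with domain in `N` -/
def BLN (n : ℕ) {X : Type} [MetricSpace X] (N : Set X) : Set (OpenPartialHomeomorph X (E n)) :=
  {φ | φ ∈ BL n X ∧ φ.source ⊆ N}

theorem stable_BLN (n : ℕ) {X : Type} [MetricSpace X] (N : Set X) : Stable n (BLN n N) := by
  rintro φ ⟨h1, h2⟩ e he
  refine ⟨stable_BL n X φ h1 e he, ?_⟩
  rw [OpenPartialHomeomorph.trans_source]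
  exact inter_subset_left.trans h2

theorem regA_BLN {n : ℕ} {X : Type} [MetricSpace X] {N : Set X} (hN : IsOpen N) {x : X}
    (hx : x ∈ RegA (BL n X)) (hxN : x ∈ N) : x ∈ RegA (BLN n N) := by
  obtain ⟨φ, ⟨L, hL⟩, hxφ⟩ := hx
  have hs : (φ.restrOpen N hN).source = φ.source ∩ N := OpenPartialHomeomorph.restrOpen_source _ _ _
  refine ⟨φ.restrOpen N hN, ⟨⟨L, fun a ha b hb => ?_⟩, ?_⟩, ?_⟩
  · rw [hs] at ha hb
    exact hL a ha.1 b hb.1
  · rw [hs]
    exact inter_subset_right
  · rw [hs]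
    exact ⟨hxφ, hxN⟩

theorem exists_pos_le {α : Type} (T : Finset α) (f : α → ℝ) (hf : ∀ t ∈ T, 0 < f t) :
    ∃ ρ : ℝ, 0 < ρ ∧ ρ ≤ 1 ∧ ∀ t ∈ T, ρ ≤ f t := by
  classical
  induction T using Finset.induction_on with
  | empty => exact ⟨1, one_pos, le_rfl, by simp⟩
  | insert a T _ ih =>
    obtain ⟨ρ, h1, h2, h3⟩ := ih fun t ht => hf t (Finset.mem_insert_of_mem ht)
    refine ⟨min ρ (f a), lt_min h1 (hf a (Finset.mem_insert_self _ _)),
      (min_le_left _ _).trans h2, fun t ht => ?_⟩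
    rcases Finset.mem_insert.1 ht with rfl | ht
    · exact min_le_right _ _
    · exact (min_le_left _ _).trans (h3 t ht)

theorem ener_congr {n : ℕ} {Q : Set (E n)} {r b : ℝ} {f f' : E n → E n}
    (h : ∀ u ∈ Q, f u = f' u) (hE : Ener Q r b f) : Ener Q r b f' := by
  intro A x y h1 h2
  refine le_trans (le_of_eq (Finset.sum_congr rfl fun a ha => ?_)) (hE A x y h1 h2)
  rw [h _ (h1 a ha).2.1, h _ (h1 a ha).2.2.1]

/-- the local condition at points where the group is locally finite -/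
theorem crit_fin {n : ℕ} (hn : 2 ≤ n) {X : Type} [MetricSpace X] [MeasurableSpace X]
    [BorelSpace X] {H : Type} [Group H] [TopologicalSpace H] [IsTopologicalGroup H] [T2Space H]
    [MulAction H X] [ContinuousSMul H X] (hreg : RegC n X H) {N : Set X} {K1 : Subgroup H}
    (hK1 : IsOpen (K1 : Set H)) (hKN : ∀ k ∈ K1, ∀ x ∈ N, k • x = x) (h : H) :
    Crit (BLN n N) h := by
  classical
  intro p hp hgp hcomp φ hφ hs
  obtain ⟨hφB, hφN⟩ := hφ
  set P : Subgroup H := (Subgroup.zpowers h).topologicalClosure with hP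
  obtain ⟨T, hTP, hTc⟩ := hcomp.elim_nhds_subcover (fun q => {x | q⁻¹ * x ∈ K1}) (fun q _ => by
    have hc : Continuous (fun x : H => q⁻¹ * x) := by fun_prop
    exact (hK1.preimage hc).mem_nhds (by
      show q⁻¹ * q ∈ K1
      rw [inv_mul_cancel]
      exact K1.one_mem))
  choose Nx hNx1 hNx2 using hreg
  have hs1 := hs.1
  have hs2 := hs.2
  refine exists_good' hcomp hs (N := ⋃ t ∈ T, φ '' (Nx t)) ?_
    (r := fun j => (1 / 2) ^ j) (b := fun j => 2 ^ j / (j + 1)) (fun j => by positivity) ?_ ?_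
  · exact Set.Countable.biUnion T.countable_toSet fun t _ => (hNx1 t).image _
  · have h1 : Tendsto (fun j : ℕ => 1 / ((j : ℝ) + 1)) atTop (𝓝 0) :=
      tendsto_one_div_add_atTop_nhds_zero_nat
    refine h1.congr fun j => ?_
    have h2 : ((1 : ℝ) / 2) ^ j * 2 ^ j = 1 := by
      rw [← mul_pow]
      norm_num
    rw [← mul_div_assoc, h2]
  · intro v hv hvN
    have hv4 : v ∈ closedBall (0 : E n) 4 := closedBall_subset_closedBall (by norm_num) hv
    have hvt : v ∈ φ.target := hs1 hv4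
    have hxs : φ.symm v ∈ φ.source := φ.map_target hvt
    have hone : ∀ t ∈ T, ∃ ρ : ℝ, 0 < ρ ∧ ∃ m : ℕ, ∀ j, m ≤ j →
        Ener (closedBall v ρ) ((1 / 2) ^ j) (2 ^ j / (j + 1)) (fun u => φ (t • φ.symm u)) := by
      intro t ht
      have hxN : φ.symm v ∉ Nx t := fun hx =>
        hvN (mem_biUnion (x := t) ht ⟨_, hx, φ.right_inv hvt⟩)
      have h1 := ener_at hn hφB t hxs (hs2 t (hTP t ht) v hv4).1
        (hNx2 t _ ⟨φ, hφB, hxs⟩ hxN)
      rw [φ.right_inv hvt] at h1
      exact h1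
    choose! ρ hρ m hm using hone
    obtain ⟨ρ0, hρ0, hρ1, hρ2⟩ := exists_pos_le T ρ hρ
    refine ⟨ρ0, hρ0, T.sup m, fun j hj q hq => ?_⟩
    obtain ⟨t, ht, hqt⟩ := mem_iUnion₂.1 (hTc hq)
    have hqt' : t⁻¹ * q ∈ K1 := hqt
    have hj' : m t ≤ j := (Finset.le_sup ht).trans hj
    refine ener_congr (fun u hu => ?_)
      (ener_mono (closedBall_subset_closedBall (hρ2 t ht)) le_rfl (hm t ht j hj'))
    have hu4 : u ∈ closedBall (0 : E n) 4 := by
      rw [mem_closedBall] at hu hv ⊢
      linarith [dist_triangle u v 0]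
    have hus : φ.symm u ∈ N := hφN (φ.map_target (hs1 hu4))
    have h2 := hKN _ hqt' _ hus
    show φ (t • φ.symm u) = φ (q • φ.symm u)
    congr 1
    calc t • φ.symm u = t • ((t⁻¹ * q) • φ.symm u) := by rw [h2]
      _ = q • φ.symm u := by rw [← mul_smul, mul_inv_cancel_left]

/-- an open subgroup which acts trivially near a point of a connected set on which the group is
locally finite acts trivially on the set -/
theorem spread {n : ℕ} (hn : 2 ≤ n) {X : Type} [MetricSpace X] [MeasurableSpace X]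
    [BorelSpace X] {H : Type} [Group H] [TopologicalSpace H] [IsTopologicalGroup H]
    [CompactSpace H] [T2Space H] [TotallyDisconnectedSpace H] [MulAction H X]
    [ContinuousSMul H X] (hreg : RegC n X H) {O : Set X} (hO : O ⊆ RegA (BL n X))
    (hOc : IsPreconnected O)
    (hZ : ∀ z ∈ O, ∃ K : Subgroup H, IsOpen (K : Set H) ∧ ∀ᶠ x in 𝓝 z, ∀ k ∈ K, k • x = x)
    {x1 : X} (hx1 : x1 ∈ O) (K : Subgroup H) (hKo : IsOpen (K : Set H))
    (hKt : ∀ᶠ x in 𝓝 x1, ∀ k ∈ K, k • x = x) : ∀ k ∈ K, ∀ x ∈ O, k • x = x := by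
  have hKc : IsClosed (K : Set H) := Subgroup.isClosed_of_isOpen K hKo
  have : CompactSpace K := isCompact_iff_compactSpace.1 hKc.isCompact
  have hDc : IsClosed (trivSub K O : Set K) :=
    isClosed_triv (Subtype.val : K → H) continuous_subtype_val _
  have hD : trivSub K O = ⊤ := by
    refine Pool.Agent.Y215.HS.syl K _ hDc ?_
    intro p hp P hPc hPp k hk
    have : CompactSpace P := isCompact_iff_compactSpace.1 hPc.isCompact
    let Z : Set X := {x | ∀ᶠ y in 𝓝 x, ∀ q : P, q • y = y}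
    have hZo : IsOpen Z := by
      rw [isOpen_iff_mem_nhds]
      intro x hx
      exact eventually_eventually_nhds.2 hx
    have hZx : x1 ∈ Z := by
      filter_upwards [hKt] with y hy q
      exact hy ((q : K) : H) (q : K).2
    have hsubZ : O ⊆ Z := by
      refine hOc.subset_of_closure_inter_subset hZo ⟨x1, hx1, hZx⟩ ?_
      rintro x ⟨hxZ, hxO⟩
      obtain ⟨Kx, hKxo, hKxt⟩ := hZ x hxO
      obtain ⟨N, hN, hNo, hxN⟩ := _root_.eventually_nhds_iff.1 hKxt
      have hregP : RegC n X P := fun q => hreg ((q : K) : H)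
      have hcrit : ∀ q : P, Crit (BLN n N) q := by
        intro q
        refine crit_fin hn hregP (K1 := Kx.comap (K.subtype.comp P.subtype)) ?_ ?_ q
        · exact hKxo.preimage (continuous_subtype_val.comp continuous_subtype_val)
        · intro k hk x hx
          exact hN x hx _ hk
      refine news' (by omega) (stable_BLN n N) hp hPp hcrit (regA_BLN hNo (hO hxO) hxN) ?_
      intro V hV
      obtain ⟨a, haV, haZ⟩ := mem_closure_iff_nhds.1 hxZ V hV
      exact ⟨a, haV, haZ⟩
    intro x hx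
    exact (hsubZ hx).self_of_nhds ⟨k, hk⟩
  intro k hk x hx
  have h1 : (⟨k, hk⟩ : K) ∈ trivSub K O := by rw [hD]; exact Subgroup.mem_top _
  exact h1 x hx

end Pool.Agent.R775.HC
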