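import Pool.Agent.R775.HC.C3
import Pool.Agent.R775.HS.Some

/-!
# Locally compact groups of homeomorphisms which are of Sobolev class off countable sets
-/

set_option autoImplicit false

open MeasureTheory Set Metric Filter Topology TopologicalSpace
open scoped ENNReal NNReal

namespace Pool.Agent.R775.HC

open Pool.Agent.Y485.HS Pool.Agent.Y489.SP Pool.Agent.R775.HS
open Pool.Agent.W660.GY (NSS GY3)

section
variable {n : ℕ} {X : Type} [TopologicalSpace X]

theorem exists_Dset' {S : Type} [Group S] [TopologicalSpace S] [MulAction S X]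
    [ContinuousSMul S X] (ψ χ : OpenPartialHomeomorph X (E n)) {r b : ℕ → ℝ} {s : S} {W : Set X}
    (hWo : IsOpen W) {x0 : X} (hx0 : x0 ∈ W) (hWs : W ⊆ ψ.source) (hsW : ∀ x ∈ W, s • x ∈ χ.source)
    {m : ℕ} (hE : ∀ j, m ≤ j → Ener (ψ '' W) (r j) (b j) (fun v => χ (s • ψ.symm v))) :
    ∃ B ∈ countableBasis (E n), ∃ B' ∈ countableBasis (E n), ψ x0 ∈ B ∧
      s ∈ Dset ψ χ r b B B' m := by
  have hw : χ (s • x0) ∈ χ.target := χ.map_source (hsW x0 hx0)
  obtain ⟨ρ, hρ, hball⟩ := (nhds_basis_closedBall.mem_iff).1 (χ.open_target.mem_nhds hw)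
  obtain ⟨B', hB', hwB', hB's⟩ := (isBasis_countableBasis (E n)).mem_nhds_iff.1
    (ball_mem_nhds (χ (s • x0)) hρ)
  have hclB' : closure B' ⊆ closedBall (χ (s • x0)) ρ :=
    closure_minimal (hB's.trans ball_subset_closedBall) isClosed_closedBall
  have hcomp : IsCompact (closure B') :=
    (isCompact_closedBall _ _).of_isClosed_subset isClosed_closure hclB'
  have hBo' : IsOpen B' := (isBasis_countableBasis (E n)).isOpen hB'
  have hx0s := hWs hx0
  have hv0 : ψ x0 ∈ ψ.target := ψ.map_source hx0s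
  have hct : ContinuousAt ψ.symm (ψ x0) := ψ.continuousAt_symm hv0
  have hleft : ψ.symm (ψ x0) = x0 := ψ.left_inv hx0s
  have h1 : ∀ᶠ v in 𝓝 (ψ x0), v ∈ ψ.target ∧ ψ.symm v ∈ W ∧ χ (s • ψ.symm v) ∈ B' := by
    have e1 : ∀ᶠ v in 𝓝 (ψ x0), v ∈ ψ.target := ψ.open_target.mem_nhds hv0
    have e2 : ∀ᶠ v in 𝓝 (ψ x0), ψ.symm v ∈ W :=
      hct.eventually_mem (by rw [hleft]; exact hWo.mem_nhds hx0)
    have e3 : ContinuousAt (fun v => χ (s • ψ.symm v)) (ψ x0) := by
      have f1 : ContinuousAt (fun v => s • ψ.symm v) (ψ x0) := hct.const_smul s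
      refine ContinuousAt.comp (g := χ) (f := fun v => s • ψ.symm v) ?_ f1
      simp only [hleft]
      exact χ.continuousAt (hsW x0 hx0)
    have e4 : ∀ᶠ v in 𝓝 (ψ x0), χ (s • ψ.symm v) ∈ B' :=
      e3.eventually_mem (by simp only [hleft]; exact hBo'.mem_nhds hwB')
    exact e1.and (e2.and e4)
  obtain ⟨B, hB, hvB, hBs⟩ := (isBasis_countableBasis (E n)).mem_nhds_iff.1 h1
  refine ⟨B, hB, B', hB', hvB, ⟨hcomp, hclB'.trans hball, fun v hv => (hBs hv).1, ⟨_, hvB⟩,
    (isBasis_countableBasis (E n)).isOpen hB⟩, ?_, ?_⟩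
  · intro v hv
    obtain ⟨f1, f2, f3⟩ := hBs hv
    exact ⟨_, subset_closure f3, χ.left_inv (hsW _ f2)⟩
  · intro j hj
    refine ener_mono (fun v hv => ?_) le_rfl (hE j hj)
    obtain ⟨f1, f2, f3⟩ := hBs hv
    exact ⟨_, f2, ψ.right_inv f1⟩

/-- a coset of an open subgroup with uniformly small energies gives an open subgroup which acts
trivially -/
theorem coset_triv (hn : 1 ≤ n) [T2Space X] {ψ χ : OpenPartialHomeomorph X (E n)}
    {S : Type} [Group S] [TopologicalSpace S] [IsTopologicalGroup S] [CompactSpace S] [T2Space S]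
    [TotallyDisconnectedSpace S] [MulAction S X] [ContinuousSMul S X] {r b : ℕ → ℝ}
    (hr : ∀ j, 0 < r j) (hrb : Tendsto (fun j => r j * b j) atTop (𝓝 0)) {B B' : Set (E n)}
    {m : ℕ} {s0 : S} {K : Subgroup S} (hKo : IsOpen (K : Set S))
    (hD : ∀ k ∈ K, s0 * k ∈ Dset ψ χ r b B B' m) {v1 : E n} (hv1 : v1 ∈ B) :
    ∃ K1 : Subgroup S, IsOpen (K1 : Set S) ∧ ∀ᶠ x in 𝓝 (ψ.symm v1), ∀ k ∈ K1, k • x = x := by
  have hKc : IsClosed (K : Set S) := Subgroup.isClosed_of_isOpen K hKo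
  have : CompactSpace K := isCompact_iff_compactSpace.1 hKc.isCompact
  obtain ⟨⟨hc1, hc2, hc3, hc4, hc5⟩, hc6, hc7⟩ := hD 1 K.one_mem
  have hsrc : χ.symm '' closure B' ⊆ χ.source := by
    rintro _ ⟨v, hv, rfl⟩
    exact χ.map_target (hc2 hv)
  rw [mul_one] at hc6
  -- the charts
  let A : Set (OpenPartialHomeomorph X (E n)) := {φ | φ.source ⊆ ψ.source ∩ ψ ⁻¹' B ∧
    ∃ L : ℝ, 0 ≤ L ∧ ∀ a ∈ φ.source, ∀ a' ∈ φ.source,
      dist (φ a) (φ a') ≤ L * dist (χ (s0 • a)) (χ (s0 • a'))}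
  have hA : Stable n A := by
    rintro φ ⟨h1, L, hL0, hL⟩ e ⟨L', hL'⟩
    have hsub : (φ.trans e).source ⊆ φ.source := by
      rw [OpenPartialHomeomorph.trans_source]
      exact inter_subset_left
    refine ⟨hsub.trans h1, |L'| * L, by positivity, fun a ha a' ha' => ?_⟩
    have ha2 := ha
    have ha2' := ha'
    rw [OpenPartialHomeomorph.trans_source] at ha2 ha2'
    have e1 := (hL' (φ a) ha2.2 (φ a') ha2'.2).1
    have e2 := hL a (hsub ha) a' (hsub ha')
    calc dist ((φ.trans e) a) ((φ.trans e) a') ≤ L' * dist (φ a) (φ a') := e1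
      _ ≤ |L'| * dist (φ a) (φ a') := mul_le_mul_of_nonneg_right (le_abs_self _) dist_nonneg
      _ ≤ |L'| * (L * dist (χ (s0 • a)) (χ (s0 • a'))) := by gcongr
      _ = _ := by ring
  have hO : IsOpen (ψ.source ∩ ψ ⁻¹' B) := ψ.isOpen_inter_preimage hc5
  have hx1 : ψ.symm v1 ∈ RegA A := by
    refine ⟨((Homeomorph.smul s0).toOpenPartialHomeomorph.trans χ).restrOpen _ hO, ⟨?_, 1,
      zero_le_one, ?_⟩, ?_⟩
    · rw [OpenPartialHomeomorph.restrOpen_source]
      exact inter_subset_right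
    · intro a _ a' _
      rw [one_mul]
      exact le_of_eq rfl
    · rw [OpenPartialHomeomorph.restrOpen_source, OpenPartialHomeomorph.trans_source]
      refine ⟨⟨mem_univ _, ?_⟩, ψ.map_target (hc3 hv1), ?_⟩
      · show s0 • ψ.symm v1 ∈ χ.source
        exact hsrc (hc6 v1 hv1)
      · show ψ (ψ.symm v1) ∈ B
        rw [ψ.right_inv (hc3 hv1)]
        exact hv1
  have hcrit : ∀ k : K, Crit A k := by
    intro k p hp hgp hcomp φ hφ hsm
    obtain ⟨hφs, L, hL0, hL⟩ := hφ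
    have h34 : closedBall (0 : E n) 3 ⊆ closedBall 0 4 :=
      closedBall_subset_closedBall (by norm_num)
    have ht3 : closedBall (0 : E n) 3 ⊆ φ.target := h34.trans hsm.1
    have hτs : ∀ v ∈ closedBall (0 : E n) 3, φ.symm v ∈ φ.source := fun v hv =>
      φ.map_target (ht3 hv)
    have hτψ : ∀ v ∈ closedBall (0 : E n) 3, ψ.symm (ψ (φ.symm v)) = φ.symm v := fun v hv =>
      ψ.left_inv (hφs (hτs v hv)).1
    refine exists_good (τ := fun v => ψ (φ.symm v)) (σ := fun u => φ (ψ.symm u)) hcomp hsm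
      ?_ ?_ ?_ (r := fun j => r (j + m)) (b := fun j => L ^ n * b (j + m)) (fun j => hr _) ?_ ?_
    · refine ψ.continuousOn.comp (φ.continuousOn_symm.mono ht3) fun v hv => ?_
      exact (hφs (hτs v hv)).1
    · refine φ.continuousOn.comp (ψ.continuousOn_symm.mono ?_) ?_
      · rintro _ ⟨v, hv, rfl⟩
        exact ψ.map_source (hφs (hτs v hv)).1
      · rintro _ ⟨v, hv, rfl⟩
        show ψ.symm (ψ (φ.symm v)) ∈ φ.source
        rw [hτψ v hv]
        exact hτs v hv
    · intro v hv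
      show φ (ψ.symm (ψ (φ.symm v))) = v
      rw [hτψ v hv, φ.right_inv (ht3 hv)]
    · have h1 := (tendsto_add_atTop_iff_nat m).2 hrb
      have h2 := h1.const_mul (L ^ n)
      rw [mul_zero] at h2
      refine h2.congr fun j => ?_
      ring
    · intro q hq j
      have hEq := (hD (q : S) q.2).2.2 (j + m) (by omega)
      intro F x y h1 h2
      have hval : ∀ u ∈ (fun v => ψ (φ.symm v)) '' closedBall (0 : E n) 3,
          u ∈ B ∧ φ.symm (φ (ψ.symm u)) = ψ.symm u ∧ (q : S) • ψ.symm u ∈ φ.source := by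
        rintro _ ⟨v, hv, rfl⟩
        have e1 := hτψ v hv
        refine ⟨(hφs (hτs v hv)).2, ?_, ?_⟩
        · show φ.symm (φ (ψ.symm (ψ (φ.symm v)))) = ψ.symm (ψ (φ.symm v))
          rw [e1, φ.left_inv (hτs v hv)]
        · show (q : S) • ψ.symm (ψ (φ.symm v)) ∈ φ.source
          rw [e1]
          exact (hsm.2 q hq v (h34 hv)).1
      have h3 := hEq F x y (fun a ha => by
        obtain ⟨g1, g2, g3, g4⟩ := h1 a ha
        exact ⟨(hval _ g1).1, (hval _ g2).1, (hval _ g3).1, g4⟩) h2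
      calc ∑ a ∈ F, dist (φ (q • φ.symm (φ (ψ.symm (x a))))) (φ (q • φ.symm (φ (ψ.symm (y a))))) ^ n
          ≤ ∑ a ∈ F, L ^ n * dist (χ ((s0 * (q : S)) • ψ.symm (x a)))
              (χ ((s0 * (q : S)) • ψ.symm (y a))) ^ n := by
            refine Finset.sum_le_sum fun a ha => ?_
            obtain ⟨-, g2, g3, -⟩ := h1 a ha
            obtain ⟨-, hx2, hx3⟩ := hval _ g2
            obtain ⟨-, hy2, hy3⟩ := hval _ g3
            rw [hx2, hy2, ← mul_pow, mul_smul, mul_smul]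
            exact pow_le_pow_left₀ dist_nonneg (hL _ hx3 _ hy3) n
        _ = L ^ n * ∑ a ∈ F, dist (χ ((s0 * (q : S)) • ψ.symm (x a)))
              (χ ((s0 * (q : S)) • ψ.symm (y a))) ^ n := by rw [Finset.mul_sum]
        _ ≤ L ^ n * b (j + m) := by gcongr
  obtain ⟨K1, hK1o, hK1t⟩ := locTriv' hn hA (H := K) hcrit hx1
  refine ⟨K1.map K.subtype, ?_, ?_⟩
  · rw [Subgroup.coe_map]
    exact hKo.isOpenMap_subtype_val _ hK1o
  · filter_upwards [hK1t] with x hx
    rintro _ ⟨k, hk, rfl⟩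
    exact hx k hk

end

end Pool.Agent.R775.HC
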