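import Pool.Agent.R775.HC.C4

/-!
# Locally compact groups of homeomorphisms which are of Sobolev class off countable sets
-/

set_option autoImplicit false

open MeasureTheory Set Metric Filter Topology TopologicalSpace
open scoped ENNReal NNReal

namespace Pool.Agent.R775.HC

open Pool.Agent.Y485.HS Pool.Agent.Y489.SP Pool.Agent.R775.HS
open Pool.Agent.W660.GY (NSS GY3)

/-- the complement of a countable set in the unit ball is connected -/
theorem ball_diff {n : ℕ} (hn : 2 ≤ n) {N : Set (E n)} (hN : N.Countable) :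
    IsPreconnected (ball (0 : E n) 1 \ N) := by
  have hrank : 1 < Module.rank ℝ (E n) := by
    rw [rank_eq_card_basis (EuclideanSpace.basisFun (Fin n) ℝ).toBasis]
    simp only [Fintype.card_fin]
    exact_mod_cast (by omega : 1 < n)
  let Φ : E n → E n := fun x => ((Homeomorph.unitBall : E n ≃ₜ ball (0 : E n) 1) x : E n)
  have hΦc : Continuous Φ := continuous_subtype_val.comp Homeomorph.unitBall.continuous
  have hΦi : Function.Injective Φ :=
    Subtype.val_injective.comp (Homeomorph.unitBall : E n ≃ₜ ball (0 : E n) 1).injective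
  have hcount : (Φ ⁻¹' N).Countable := hN.preimage hΦi
  have h1 := (hcount.isConnected_compl_of_one_lt_rank hrank).isPreconnected
  have h2 : Φ '' (Φ ⁻¹' N)ᶜ = ball (0 : E n) 1 \ N := by
    ext y
    constructor
    · rintro ⟨x, hx, rfl⟩
      exact ⟨((Homeomorph.unitBall : E n ≃ₜ ball (0 : E n) 1) x).2, hx⟩
    · rintro ⟨hy, hyN⟩
      refine ⟨(Homeomorph.unitBall : E n ≃ₜ ball (0 : E n) 1).symm ⟨y, hy⟩, ?_, ?_⟩
      · show Φ _ ∉ N
        simp only [Φ, Homeomorph.apply_symm_apply]
        exact hyN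
      · simp only [Φ, Homeomorph.apply_symm_apply]
  rw [← h2]
  exact h1.image _ hΦc.continuousOn

section
variable {n : ℕ} {X : Type} [MetricSpace X] [MeasurableSpace X] [BorelSpace X]

/-- the points near which some open subgroup acts trivially -/
def Zs (X : Type) [TopologicalSpace X] (S : Type) [Group S] [TopologicalSpace S]
    [MulAction S X] : Set X :=
  {x | ∃ K : Subgroup S, IsOpen (K : Set S) ∧ ∀ᶠ y in 𝓝 x, ∀ k ∈ K, k • y = y}

theorem regC_sub {S : Type} [Group S] [MulAction S X] (h : RegC n X S) (K : Subgroup S) :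
    RegC n X K := fun k => h (k : S)

/-- some open subgroup acts trivially near every regular point -/
theorem local_fin (hn : 2 ≤ n) {S : Type} [Group S] [TopologicalSpace S] [IsTopologicalGroup S]
    [CompactSpace S] [T2Space S] [TotallyDisconnectedSpace S] [MulAction S X]
    [ContinuousSMul S X] (hreg : RegC n X S) {x0 : X} (hx0 : x0 ∈ RegA (BL n X)) :
    x0 ∈ Zs X S := by
  classical
  by_contra hcon
  obtain ⟨φ, hφ, hxφ, hφ0, H0, hH0o, hH0s⟩ := start' (stable_BL n X) (H := S) hx0
  have hH0c : IsClosed (H0 : Set S) := Subgroup.isClosed_of_isOpen H0 hH0o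
  have : CompactSpace H0 := isCompact_iff_compactSpace.1 hH0c.isCompact
  obtain ⟨ht4, hs4⟩ := hH0s
  have hb4 : ball (0 : E n) 1 ⊆ closedBall 0 4 :=
    ball_subset_closedBall.trans (closedBall_subset_closedBall (by norm_num))
  have hbt : ball (0 : E n) 1 ⊆ φ.target := hb4.trans ht4
  set N : Set (E n) := {v | v ∈ ball (0 : E n) 1 ∧ φ.symm v ∉ Zs X S} with hN
  by_cases hNc : N.Countable
  · -- the exceptional set is countable
    set O : Set X := φ.symm '' (ball (0 : E n) 1 \ N) with hO
    have hOc : IsPreconnected O :=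
      (ball_diff hn hNc).image _ (φ.continuousOn_symm.mono (diff_subset.trans hbt))
    have hOr : O ⊆ RegA (BL n X) := by
      rintro _ ⟨v, hv, rfl⟩
      exact ⟨φ, hφ, φ.map_target (hbt hv.1)⟩
    have hOz : ∀ z ∈ O, ∃ K : Subgroup S, IsOpen (K : Set S) ∧
        ∀ᶠ x in 𝓝 z, ∀ k ∈ K, k • x = x := by
      rintro _ ⟨v, hv, rfl⟩
      by_contra h
      exact hv.2 ⟨hv.1, h⟩
    have hdense : Dense Nᶜ := by
      have : Nontrivial (E n) := by
        refine ⟨0, EuclideanSpace.single ⟨0, by omega⟩ 1, fun h => ?_⟩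
        have := congrArg (fun z : E n => z ⟨0, by omega⟩) h
        simp at this
      exact hNc.dense_compl ℝ
    obtain ⟨v1, hv1b, hv1N⟩ : ∃ v1 ∈ ball (0 : E n) 1, v1 ∉ N := by
      obtain ⟨v1, h1, h2⟩ := hdense.inter_open_nonempty (ball (0 : E n) 1) isOpen_ball
        ⟨0, by simp⟩
      exact ⟨v1, h1, h2⟩
    have hx1 : φ.symm v1 ∈ O := ⟨v1, ⟨hv1b, hv1N⟩, rfl⟩
    obtain ⟨K, hKo, hKt⟩ := hOz _ hx1
    have hall := spread hn hreg hOr hOc hOz hx1 K hKo hKt
    -- the closure
    have hball : ∀ k ∈ K, ∀ v ∈ ball (0 : E n) 1, k • φ.symm v = φ.symm v := by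
      intro k hk v hv
      by_contra hne
      have hc1 : ContinuousAt φ.symm v := φ.continuousAt_symm (hbt hv)
      have hc2 : ContinuousAt (fun w => k • φ.symm w) v := hc1.const_smul k
      have hc3 : ContinuousAt (fun w => dist (k • φ.symm w) (φ.symm w)) v :=
        continuous_dist.continuousAt.comp (hc2.prodMk hc1)
      have hev : ∀ᶠ w in 𝓝 v, 0 < dist (k • φ.symm w) (φ.symm w) ∧ w ∈ ball (0 : E n) 1 :=
        (hc3.eventually (lt_mem_nhds (dist_pos.2 hne))).and (isOpen_ball.mem_nhds hv)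
      obtain ⟨W, hW, hWo, hvW⟩ := _root_.eventually_nhds_iff.1 hev
      obtain ⟨w, hwW, hwN⟩ := hdense.inter_open_nonempty W hWo ⟨v, hvW⟩
      obtain ⟨h1, h2⟩ := hW w hwW
      have h3 := hall k hk (φ.symm w) ⟨w, ⟨h2, hwN⟩, rfl⟩
      rw [h3, dist_self] at h1
      exact lt_irrefl _ h1
    apply hcon
    refine ⟨K, hKo, ?_⟩
    have hopen : IsOpen (φ.source ∩ φ ⁻¹' ball 0 1) := φ.isOpen_inter_preimage isOpen_ball
    have hmem : x0 ∈ φ.source ∩ φ ⁻¹' ball 0 1 := ⟨hxφ, by simp [hφ0]⟩
    filter_upwards [hopen.mem_nhds hmem] with x hx k hk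
    have h1 := hball k hk (φ x) hx.2
    rwa [φ.left_inv hx.1] at h1
  · -- the exceptional set is uncountable
    have hr : ∀ j : ℕ, (0 : ℝ) < (1 / 2) ^ j := fun j => by positivity
    have hrb : Tendsto (fun j : ℕ => ((1 : ℝ) / 2) ^ j * (2 ^ j / (j + 1))) atTop (𝓝 0) := by
      have h1 : Tendsto (fun j : ℕ => 1 / ((j : ℝ) + 1)) atTop (𝓝 0) :=
        tendsto_one_div_add_atTop_nhds_zero_nat
      refine h1.congr fun j => ?_
      have h2 : ((1 : ℝ) / 2) ^ j * 2 ^ j = 1 := by
        rw [← mul_pow]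
        norm_num
      rw [← mul_div_assoc, h2]
    have hcount : (countableBasis (E n)).Countable := countable_countableBasis (E n)
    have : Countable (countableBasis (E n)) := hcount.to_subtype
    let f : (countableBasis (E n)) × (countableBasis (E n)) × ℕ → Set H0 := fun q =>
      {s | (∃ v ∈ q.1.1, φ.symm v ∉ Zs X S) ∧
        s ∈ Dset φ φ (fun j => (1 / 2) ^ j) (fun j => 2 ^ j / (j + 1)) q.1.1 q.2.1.1 q.2.2}
    have hfc : ∀ q, IsClosed (f q) := by
      intro q
      by_cases hq : ∃ v ∈ q.1.1, φ.symm v ∉ Zs X S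
      · have : f q = Dset φ φ (fun j => (1 / 2) ^ j) (fun j => 2 ^ j / (j + 1)) q.1.1 q.2.1.1
            q.2.2 := by
          ext s
          exact ⟨fun h => h.2, fun h => ⟨hq, h⟩⟩
        rw [this]
        exact isClosed_Dset _ _ _ _ _ _ _
      · have : f q = ∅ := by
          ext s
          simp only [f, mem_ofPred_eq, mem_empty_iff_false, iff_false, not_and]
          exact fun h => (hq h).elim
        rw [this]
        exact isClosed_empty
    have hU : ⋃ q, f q = univ := by
      ext s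
      simp only [mem_iUnion, mem_univ, iff_true]
      obtain ⟨Ns, hNs, hregs⟩ := hreg (s : S)
      -- a point of the exceptional set at which `s` is regular
      obtain ⟨v, hvN, hvs⟩ : ∃ v ∈ N, φ.symm v ∉ Ns := by
        by_contra hall
        push Not at hall
        apply hNc
        have h1 : InjOn φ.symm N := fun a ha b hb hab => by
          rw [← φ.right_inv (hbt ha.1), hab, φ.right_inv (hbt hb.1)]
        refine (MapsTo.countable_of_injOn (t := Ns) (fun v hv => hall v hv) h1 hNs)
      have hvt := hbt hvN.1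
      have hxs : φ.symm v ∈ φ.source := φ.map_target hvt
      have hsx : (s : S) • φ.symm v ∈ φ.source := (hs4 s s.2 v (hb4 hvN.1)).1
      obtain ⟨ρ, hρ, m, hm⟩ := ener_at hn hφ (s : S) hxs hsx (hregs _ ⟨φ, hφ, hxs⟩ hvs)
      rw [φ.right_inv hvt] at hm
      set W : Set X := (φ.source ∩ φ ⁻¹' ball v ρ) ∩ {x | (s : S) • x ∈ φ.source} with hW
      have hWo : IsOpen W := (φ.isOpen_inter_preimage isOpen_ball).inter
        (φ.open_source.preimage (continuous_const_smul (s : S)))
      have hxW : φ.symm v ∈ W := ⟨⟨hxs, by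
        show φ (φ.symm v) ∈ ball v ρ
        rw [φ.right_inv hvt]
        exact mem_ball_self hρ⟩, hsx⟩
      obtain ⟨B, hB, B', hB', hvB, hD⟩ := exists_Dset' (S := H0) (s := s) φ φ
        (r := fun j => (1 / 2) ^ j) (b := fun j => 2 ^ j / (j + 1)) hWo hxW
        (fun x hx => hx.1.1) (fun x hx => hx.2) (m := m) (fun j hj => by
          refine ener_mono ?_ le_rfl (hm j hj)
          rintro _ ⟨x, hx, rfl⟩
          exact ball_subset_closedBall hx.1.2)
      rw [φ.right_inv hvt] at hvB
      exact ⟨(⟨B, hB⟩, ⟨B', hB'⟩, m), ⟨v, hvB, hvN.2⟩, hD⟩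
    obtain ⟨⟨⟨B, hB⟩, ⟨B', hB'⟩, m⟩, s0, hs0⟩ :=
      nonempty_interior_of_iUnion_of_closed (f := f) hfc hU
    have hopen : IsOpen ((fun k : H0 => s0 * k) ⁻¹'
        (interior (f (⟨B, hB⟩, ⟨B', hB'⟩, m)))) :=
      isOpen_interior.preimage (continuous_const.mul continuous_id)
    obtain ⟨M, hM⟩ := ProfiniteGrp.exist_openNormalSubgroup_sub_open_nhds_of_one hopen (by
      rw [mem_preimage, mul_one]; exact hs0)
    have hD : ∀ k ∈ M.toSubgroup, s0 * k ∈ f (⟨B, hB⟩, ⟨B', hB'⟩, m) := fun k hk =>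
      interior_subset (hM hk)
    obtain ⟨⟨v1, hv1B, hv1Z⟩, -⟩ := hD 1 M.toSubgroup.one_mem
    obtain ⟨K1, hK1o, hK1t⟩ := coset_triv (by omega : 1 ≤ n) hr hrb (K := M.toSubgroup) M.isOpen'
      (fun k hk => (hD k hk).2) hv1B
    apply hv1Z
    refine ⟨K1.map H0.subtype, ?_, ?_⟩
    · rw [Subgroup.coe_map]
      exact hH0o.isOpenMap_subtype_val _ hK1o
    · filter_upwards [hK1t] with x hx
      rintro _ ⟨k, hk, rfl⟩
      exact hx k hk

/-- The Hilbert-Smith conjecture for homeomorphisms of Sobolev class off countable sets. -/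
theorem lie_countable (hn : 2 ≤ n) (hdense : Dense (RegA (BL n X)))
    (hconn : IsPreconnected (RegA (BL n X))) {G : Type} [Group G] [TopologicalSpace G]
    [IsTopologicalGroup G] [LocallyCompactSpace G] [MulAction G X] [ContinuousSMul G X]
    [FaithfulSMul G X] {V : Set G} (hV : V ∈ 𝓝 (1 : G))
    (hreg : ∀ g, SmallPow V g → ∃ N : Set X, N.Countable ∧ ∀ x ∈ RegA (BL n X), x ∉ N →
      SobAt n (fun x : X => g • x) x) : IsLie G := by
  have hT2 : T2Space G := by
    refine ⟨fun g h hgh => ?_⟩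
    obtain ⟨x, hx⟩ : ∃ x : X, g • x ≠ h • x := by
      by_contra hall
      push Not at hall
      exact hgh (eq_of_smul_eq_smul hall)
    obtain ⟨u, v, hu, hv, hgu, hhv, huv⟩ := t2_separation hx
    have hc : Continuous (fun g : G => g • x) := by fun_prop
    exact ⟨_, _, hu.preimage hc, hv.preimage hc, hgu, hhv, huv.preimage _⟩
  have hN : NSS G := by
    refine nss_of_Z V hV ?_
    intro S _ _ _ _ _ _ i hi hinj hiV
    let _ : MulAction S X := MulAction.compHom X i
    have _ : ContinuousSMul S X := ⟨by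
      have h : Continuous (fun q : S × X => i q.1 • q.2) := by fun_prop
      exact h⟩
    have hregS : RegC n X S := fun s => hreg (i s) (smallPow_of_hom i hi hiV s)
    obtain ⟨K, hKo, hKt⟩ : ∃ K : Subgroup S, IsOpen (K : Set S) ∧
        ∀ k ∈ K, ∀ x : X, k • x = x := by
      rcases isEmpty_or_nonempty X with hX | hX
      · exact ⟨⊤, isOpen_univ, fun k _ x => (hX.false x).elim⟩
      obtain ⟨x0, hx0⟩ := hdense.nonempty
      have hloc : ∀ z ∈ RegA (BL n X), ∃ K : Subgroup S, IsOpen (K : Set S) ∧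
          ∀ᶠ x in 𝓝 z, ∀ k ∈ K, k • x = x := fun z hz => local_fin hn hregS hz
      obtain ⟨K, hKo, hKt⟩ := hloc x0 hx0
      have hall := spread hn hregS subset_rfl hconn hloc hx0 K hKo hKt
      refine ⟨K, hKo, fun k hk x => ?_⟩
      have hcl : IsClosed {x : X | k • x = x} :=
        isClosed_eq (continuous_const_smul k) continuous_id
      have h3 := hcl.closure_subset_iff.2 (fun y hy => hall k hk y hy :
        RegA (BL n X) ⊆ {x : X | k • x = x})
      rw [hdense.closure_eq] at h3
      exact h3 (mem_univ x)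
    have hbot : K = ⊥ := by
      rw [eq_bot_iff]
      intro k hk
      rw [Subgroup.mem_bot]
      apply hinj
      refine eq_of_smul_eq_smul (α := X) fun x => ?_
      rw [map_one, one_smul]
      exact hKt k hk x
    rw [hbot] at hKo
    refine discreteTopology_of_isOpen_singleton_one ?_
    convert hKo using 1
    ext x
    simp
  obtain ⟨E, i1, i2, i3, ⟨C⟩⟩ := Pool.Agent.Y328.HS.lga G hN
  let _ := i1
  let _ := i2
  have _ := i3
  exact Pool.Agent.Y286.HS.lgb G E C

end

end Pool.Agent.R775.HC
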